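import Pool.Agent.PLX.Ns
import Pool.Agent.NUSea.Sea
import Pool.Agent.NUR2.Ext

/-!
# Admissible potentials and admissible cutoffs

`HOk`: admissible real potentials (one for every species, at its own curve); `CutR`: admissible
cutoffs (one for both species, an upper bound).
-/

set_option autoImplicit false
set_option linter.unusedSectionVars false

noncomputable section

open MeasureTheory Finset Filter Topology

namespace PotH.PLX

/-- **admissible potentials**: bounded by `B0`, energy on `[-T, T]` at most `N0 + th T`, on `|t| ≤ b`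
four derivatives bounded by `A` -/
structure HOk (B0 N0 th b A : ℝ) (H H' : Bool → ℝ → ℝ) : Prop where
  d : ∀ a t, HasDerivAt (H a) (H' a t) t
  c : ∀ a, Continuous (H' a)
  le : ∀ a t, |H a t| ≤ B0
  en : ∀ a T, 0 ≤ T → ∫ t in (-T)..T, (H a t ^ 2 + H' a t ^ 2) ≤ N0 + th * T
  ext : ∀ a, NUR2.Ext 4 b A (H a)

variable [NUSea.Sea]

/-- **admissible cutoffs of the rows** on the curve: `cr` the cutoff, `Bc` its majorant; in the bulk
`|t| ≤ b` its logarithm is smooth -/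
structure CutR (ep C0 b : ℝ) (m : ℕ) (cr Bc Bc' : ℝ → ℝ) : Prop where
  meas : Measurable cr
  nn : ∀ t, 0 ≤ cr t
  Bd : ∀ t, HasDerivAt Bc (Bc' t) t
  Bcc : Continuous Bc'
  B0 : ∀ t, 0 ≤ Bc t
  B1 : ∀ t, Bc t ≤ 1
  PI : Integrable (fun t => (m : ℝ) * NUSea.P t * Bc t)
  PC : ∫ t, (m : ℝ) * NUSea.P t * Bc t ≤ C0
  EI : Integrable (fun t => Bc t ^ 2 + Bc' t ^ 2)
  EC : ∫ t, Bc t ^ 2 + Bc' t ^ 2 ≤ C0
  le : ∀ t, cr t ≤ Real.exp (Bc t)
  le2 : ∀ t, cr t ≤ 2
  dec : ∀ t, cr t ≤ C0 * m * Real.exp (-(8 / 3 * (1 - ep)) * |t|)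
  ext : ∃ Ec : ℝ → ℝ, NUR2.Ext 4 b 1 Ec ∧ ∀ t, |t| ≤ b → cr t = Real.exp (Ec t)

end PotH.PLX

end
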