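import Pool.Agent.PLX.Ns
import Pool.Agent.PLX.Ends
import Pool.Agent.PLX.PotH.Adm
import Pool.Agent.PLX.NUSea.CurCv

/-!
# Admissible curves and the effective numbers of rows

* `CrvP`: admissible curves (one curve, species `a` on `Fil.cv a η`);
* `sN m a`: the effective number of rows of species `a`;
* `CrvP.spc`: the curves of the two species.
-/

set_option autoImplicit false
set_option linter.unusedSectionVars false

noncomputable section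

open MeasureTheory Finset Filter Topology
open PLX (Fil Ends)

namespace PotH.PLX

open NUO (Tb)

/-! ### the numbers -/

section

variable [Fil] [Ends]

/-- the effective number of rows of species `a` -/
@[reducible] def sN (m : ℕ) (a : Bool) : ℝ := (Fil.ne a m : ℕ)

lemma sN_true {m : ℕ} (hm : 1 ≤ m) : sN m true = m := Fil.cast_ne_true hm

lemma sN_nonneg (m : ℕ) (a : Bool) : 0 ≤ sN m a := Nat.cast_nonneg _

lemma le_sN (m : ℕ) (a : Bool) : (m : ℝ) ≤ sN m a := Fil.le_ner a m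

lemma sN_le {m : ℕ} (hm : 1 ≤ m) (a : Bool) : sN m a ≤ (Fil.qo : ℕ) * m := Fil.ner_le_qo a hm

/-- the difference of the effective numbers is the number of the additional quanta Y -/
lemma sN_sub (m : ℕ) : sN m false - sN m true = (Fil.xe m : ℕ) := Fil.ner_sub m

lemma sN_div {m : ℕ} (hm : 1 ≤ m) (a : Bool) :
    |sN m a / Fil.b a - sN m true| ≤ ((Fil.qo : ℕ) : ℝ) := by
  have h1 : ((Ends.e : ℕ) : ℝ) ≤ 1 := by exact_mod_cast Ends.le
  have h2 : (0 : ℝ) ≤ ((Ends.e : ℕ) : ℝ) := Nat.cast_nonneg _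
  have h3 : (0 : ℝ) ≤ ((Ends.o : ℕ) : ℝ) := Nat.cast_nonneg _
  have h4 := Fil.inv_b_le a
  have h5 := Fil.inv_b_pos a
  have h6 : 0 ≤ cond a (0 : ℝ) ((Ends.o : ℕ) : ℝ) := by cases a <;> simp
  have h7 : cond a (0 : ℝ) ((Ends.o : ℕ) : ℝ) ≤ ((Ends.o : ℕ) : ℝ) := by cases a <;> simp
  have hq := Fil.one_le_qr
  have hb := Fil.b_ne a
  have e1 : sN m a / Fil.b a - sN m true =
      ((Ends.e : ℕ) : ℝ) * ((Fil.b a)⁻¹ - 1) + cond a 0 ((Ends.o : ℕ) : ℝ) * (Fil.b a)⁻¹ := by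
    rw [sN_true hm]
    unfold sN
    rw [Fil.cast_ne a hm]
    field_simp
    ring
  have e2 : ((Fil.qo : ℕ) : ℝ) = (Fil.q : ℕ) + (Ends.o : ℕ) := by
    unfold Fil.qo
    push_cast
    ring
  rw [e1, e2, abs_le]
  constructor <;> nlinarith

end

/-! ### the curves -/

variable [NUSea.Sea]

/-- **admissible curves**: `m` rows, window `(1 - e1) Tb`; the current `m P η` is Lipschitz -/
structure CrvP (e1 Cc : ℝ) (m : ℕ) (η η1 : ℝ → ℝ) : Prop where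
  cur : ∃ (ε : ℝ) (e : ℝ → ℝ),
    NUSea.PLX.Cur m ε (Cc * Real.log m) ((1 - e1) * Tb (Real.log m)) e η ∧ 0 ≤ ε ∧
      ε ≤ (m : ℝ) ^ (-(e1 / 2)) ∧ ε ≤ 1 / 100
  d : ∀ t, HasDerivAt η (η1 t) t
  c : Continuous η1
  nn : ∀ t, 0 ≤ η t
  lip : ∀ t t', |(m : ℝ) * NUSea.P t * η t - (m : ℝ) * NUSea.P t' * η t'| ≤ |t - t'|

section

variable {e1 Cc : ℝ} {m : ℕ} {η η1 : ℝ → ℝ}

lemma CrvP.le (h : CrvP e1 Cc m η η1) (t : ℝ) : |η t| ≤ 1 / 100 := by
  obtain ⟨ε, e, h1, -, -, h4⟩ := h.cur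
  letI := Fil.one
  exact (h1.abs_le t).trans ((h1.le t).trans h4)

lemma CrvP.le1 (h : CrvP e1 Cc m η η1) (t : ℝ) : |η1 t| ≤ 1 / 100 := by
  obtain ⟨ε, e, h1, -, -, h4⟩ := h.cur
  letI := Fil.one
  exact (h1.abs_le1 h.d t).trans ((h1.le t).trans h4)

variable [Fil]

lemma CrvP.dcv (h : CrvP e1 Cc m η η1) (a : Bool) (t : ℝ) :
    HasDerivAt (Fil.cv a η) (Fil.cv a η1 t) t := Fil.hasDerivAt_cv a (h.d t)

lemma CrvP.ccv (h : CrvP e1 Cc m η η1) (a : Bool) : Continuous (Fil.cv a η1) :=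
  Fil.continuous_cv a h.c

lemma CrvP.nncv (h : CrvP e1 Cc m η η1) (a : Bool) (t : ℝ) : 0 ≤ Fil.cv a η t :=
  Fil.cv_nonneg (h.nn t)

lemma CrvP.lecv (h : CrvP e1 Cc m η η1) (a : Bool) (t : ℝ) : |Fil.cv a η t| ≤ 1 / 100 :=
  Fil.abs_cv_le_of (h.le t)

variable [Ends]

/-- **the curves of the two species**: the numbers `sN m a`, the same weight, nearly equal currents -/
lemma CrvP.spc (h : CrvP e1 Cc m η η1) (hm : 1 ≤ m) :
    ∃ (ε : ℝ) (e : ℝ → ℝ),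
      (∀ a, NUSea.PLX.Cur (sN m a) ε ((Fil.qo : ℕ) * (Cc * Real.log m))
        ((1 - e1) * Tb (Real.log m)) e (Fil.cv a η)) ∧
      NUSea.PLX.Com ((Fil.qo : ℕ) : ℝ) (sN m) e (fun a => Fil.cv a η) (fun a => Fil.cv a η1) ∧
      0 ≤ ε ∧ ε ≤ (m : ℝ) ^ (-(e1 / 2)) ∧ ε ≤ 1 / 100 := by
  obtain ⟨ε, e, h1, h2, h3, h4⟩ := h.cur
  have hm0 : (0 : ℝ) < m := by exact_mod_cast hm
  refine ⟨ε, e, fun a => ?_, ?_, h2, h3, h4⟩
  · obtain ⟨k1, k2, k3, k4⟩ := h1.cv hm0 a (sN_nonneg m a)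
    refine ⟨k1, k2, fun t => (k3 t).trans ?_, k4⟩
    have hM : 0 ≤ Cc * Real.log m := by
      have h5 := h1.mass 0
      have h6 := h1.oc.nonneg 0
      have h7 := NUSea.P_pos 0
      refine le_trans ?_ h5
      positivity
    refine mul_le_mul_of_nonneg_right ?_ hM
    rw [div_le_iff₀ hm0]
    exact sN_le hm a
  · exact h1.com h.d (Nat.cast_nonneg _) (sN_div hm)

end

end PotH.PLX

end
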