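import Pool.Agent.PLX.PotH.Adm
import Pool.Agent.PLX.IST.Src0

/-!
# Admissible potentials with a source

`HSk`: smooth potentials which are, up to the potential of a source of size `B0`, admissible (`HOk`).

* `HOk.hsk`: an admissible potential is one (no source);
* `HSk.le`: it is bounded by a multiple of `B0`;
* `HSk.mono_th`, `HSk.mono_B`: monotonicity.
-/

set_option autoImplicit false
set_option linter.unusedSectionVars false

noncomputable section

open MeasureTheory Finset Filter Topology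

namespace PotH.PLX

open NUSea.PLX.H0 (DnS SrcOk srcP)

/-- **admissible potentials with a source** of size `B0`: `H` is `C^1`, its four derivatives on `|t| ≤ b` are
bounded by `A`, and `H` minus the potential of a source of size `B0` is admissible -/
structure HSk (B0 N0 th b A : ℝ) (H H' : Bool → ℝ → ℝ) : Prop where
  d : ∀ a t, HasDerivAt (H a) (H' a t) t
  c : ∀ a, Continuous (H' a)
  ext : ∀ a, NUR2.Ext 4 b A (H a)
  src : ∃ (ν : Bool → ℝ → ℝ) (τ : ℝ → ℝ) (H0' : Bool → ℝ → ℝ), SrcOk B0 ν τ ∧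
    HOk B0 N0 th b A (fun a t => H a t - srcP ν τ a t) H0'

/-- the source zero -/
lemma srcOk_zero {s : ℝ} (hs : 0 ≤ s) : SrcOk s (fun _ _ => 0) fun _ => 0 := by
  have h : DnS s fun _ => 0 := ⟨hs, continuous_const, fun t => by
    rw [abs_zero]
    positivity⟩
  exact ⟨fun _ => h, h, by simp⟩

lemma srcP_zero (a : Bool) (t : ℝ) : srcP (fun _ _ => 0) (fun _ => 0) a t = 0 := by
  unfold srcP NUC43.lgp
  simp

/-- **no source** -/
theorem HOk.hsk {B0 N0 th b A : ℝ} {H H' : Bool → ℝ → ℝ} (h : HOk B0 N0 th b A H H') :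
    HSk B0 N0 th b A H H' where
  d := h.d
  c := h.c
  ext := h.ext
  src := ⟨fun _ _ => 0, fun _ => 0, H', srcOk_zero ((abs_nonneg _).trans (h.le true 0)), by
    simp only [srcP_zero, sub_zero]
    exact h⟩

/-- **bound of the potential** -/
theorem HSk.le {B0 N0 th b A : ℝ} {H H' : Bool → ℝ → ℝ} (h : HSk B0 N0 th b A H H') (a : Bool) (t : ℝ) :
    |H a t| ≤ (13 + ∫ u, |NUMF.V u|) * B0 := by
  obtain ⟨ν, τ, H0', hs, hH⟩ := h.src
  have h1 := hs.le a t
  have h2 := hH.le a t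
  have h3 := abs_add_le (H a t - srcP ν τ a t) (srcP ν τ a t)
  rw [sub_add_cancel] at h3
  linarith

theorem HSk.B0_nonneg {B0 N0 th b A : ℝ} {H H' : Bool → ℝ → ℝ} (h : HSk B0 N0 th b A H H') : 0 ≤ B0 := by
  obtain ⟨ν, τ, H0', hs, -⟩ := h.src
  exact hs.s0

theorem HOk.mono_th {B0 N0 th th' b A : ℝ} {H H' : Bool → ℝ → ℝ} (h : HOk B0 N0 th b A H H')
    (hth : th ≤ th') : HOk B0 N0 th' b A H H' :=
  { h with en := fun a T hT => (h.en a T hT).trans (by
      have := mul_le_mul_of_nonneg_right hth hT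
      linarith) }

theorem HSk.mono_th {B0 N0 th th' b A : ℝ} {H H' : Bool → ℝ → ℝ} (h : HSk B0 N0 th b A H H')
    (hth : th ≤ th') : HSk B0 N0 th' b A H H' := by
  obtain ⟨ν, τ, H0', hs, hH⟩ := h.src
  exact ⟨h.d, h.c, h.ext, ν, τ, H0', hs, hH.mono_th hth⟩

/-- sources of a smaller size -/
theorem _root_.NUSea.PLX.H0.SrcOk.mono {s s' : ℝ} {ν : Bool → ℝ → ℝ} {τ : ℝ → ℝ} (h : SrcOk s ν τ)
    (hs : s ≤ s') : SrcOk s' ν τ := by
  have key : ∀ {f : ℝ → ℝ}, DnS s f → DnS s' f := fun h =>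
    ⟨h.s0.trans hs, h.c, fun t => (h.b t).trans (mul_le_mul_of_nonneg_right hs (Real.exp_pos _).le)⟩
  exact ⟨fun a => key (h.dν a), key h.dτ, h.τ0⟩

theorem HSk.mono_B {B0 B0' N0 N0' th b A : ℝ} {H H' : Bool → ℝ → ℝ} (h : HSk B0 N0 th b A H H')
    (hB : B0 ≤ B0') (hN : N0 ≤ N0') : HSk B0' N0' th b A H H' := by
  obtain ⟨ν, τ, H0', hs, hH⟩ := h.src
  exact ⟨h.d, h.c, h.ext, ν, τ, H0', hs.mono hB,
    { hH with
      le := fun a t => (hH.le a t).trans hB
      en := fun a T hT => (hH.en a T hT).trans (by linarith) }⟩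

end PotH.PLX

end
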