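import Pool.Agent.PLX.Ns
import Pool.Agent.PLX.PotH.Crv
import Pool.Agent.PLX.PotH.SrcH
import Pool.Agent.PLX.NUGC.DefC
import Pool.Agent.PLX.NUGC.InC

/-!
# The environment of a configuration (two fillings)

No kinds of objects in this file.

* `DomH`: domination of the one body data on the curve of every species;
* **`EnvH`**: curve, cutoff, potential with a source, one body data, groups; `EnvH.mono`, `EnvH.mono_B`.
-/

set_option autoImplicit false
set_option linter.unusedSectionVars false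

noncomputable section

open MeasureTheory Finset Filter Topology
open PLX (Fil Ends)

namespace PotH.PLX

open NUGC.PLX (OB pE qE)
open NUO (Tb)
open NUSea.PLX.H0 (Gd)

variable [NUSea.Sea] [Fil] [Ends]

/-- **domination of the one body data** on the curve of every species: rows of the sea, ends and groups
at their true heights, potential `H`, cutoff `cr` -/
def DomH (B : OB) (m : ℕ) (η : ℝ → ℝ) (cr : ℝ → ℝ) {n : ℕ} (g : Fin n → Gd)
    (H : Bool → ℝ → ℝ) : Prop :=
  ∀ a t, B.R a (NUO.pA (Fil.cv a η) t) * ‖B.φ a (NUO.pA (Fil.cv a η) t)‖ ≤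
    2 * Real.cos NUP1.l * (Real.exp ((NUSea.PLX.vb (sN m) a
        (NUAct.zt (NUKer.iD (Fil.cv a η)) t)).re +
      (NUSp.DD pE qE (List.ofFn fun i => (g i).G) a (NUAct.zt (NUKer.iD (Fil.cv a η)) t)).re +
        H a t) * cr t)

/-- **the environment of a configuration**: curve, cutoff, potential, one body data, groups; `th` the
slope of the energy of the potential -/
structure EnvH (ep e1 Cc C0 B0 N0 th : ℝ) (m : ℕ) (η η1 cr Bc Bc' : ℝ → ℝ) (H H' : Bool → ℝ → ℝ)
    (B : OB) {n : ℕ} (g : Fin n → Gd) : Prop where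
  crv : CrvP e1 Cc m η η1
  cut : CutR ep C0 ((1 - e1) * Tb (Real.log m)) m cr Bc Bc'
  hok : HSk B0 N0 th ((1 - e1) * Tb (Real.log m)) (Real.log m ^ 3) H H'
  nn : B.Nn
  dom : DomH B m η cr g H

theorem EnvH.mono {ep e1 Cc C0 B0 N0 th th' : ℝ} {m : ℕ} {η η1 cr Bc Bc' : ℝ → ℝ}
    {H H' : Bool → ℝ → ℝ} {B : OB} {n : ℕ} {g : Fin n → Gd}
    (h : EnvH ep e1 Cc C0 B0 N0 th m η η1 cr Bc Bc' H H' B g) (hth : th ≤ th') :
    EnvH ep e1 Cc C0 B0 N0 th' m η η1 cr Bc Bc' H H' B g :=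
  { h with hok := h.hok.mono_th hth }

theorem EnvH.mono_B {ep e1 Cc C0 B0 B0' N0 N0' th : ℝ} {m : ℕ} {η η1 cr Bc Bc' : ℝ → ℝ}
    {H H' : Bool → ℝ → ℝ} {B : OB} {n : ℕ} {g : Fin n → Gd}
    (h : EnvH ep e1 Cc C0 B0 N0 th m η η1 cr Bc Bc' H H' B g) (hB : B0 ≤ B0') (hN : N0 ≤ N0') :
    EnvH ep e1 Cc C0 B0' N0' th m η η1 cr Bc Bc' H H' B g :=
  { h with hok := h.hok.mono_B hB hN }

end PotH.PLX

end
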