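import Pool.Agent.PLX.Ns
import Pool.Agent.PLX.PotH.Crv
import Pool.Agent.PLX.NUGC.CurEx

/-!
# The curve of TARGET-C is an admissible curve, any sea, any number of rows

* **`exists_crvC`**: `CrvP e1 Cc m (etaC e1 J m m) (etaC' e1 J m m)` for every `m ≥ m0`.
-/

set_option autoImplicit false
set_option linter.unusedSectionVars false

open MeasureTheory Set Filter Topology

namespace PotH.PLX

open NUO NUGC NUGC.PLX

noncomputable section

/-- the slope of the current is at most one for large `m` -/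
theorem slope_hC {e1 : ℝ} (he : 0 < e1) (J : ℝ) (hJ : 0 ≤ J) : ∃ m0 : ℕ, ∀ m ≥ m0,
    e1 ≤ 1 / 100 → 20 ≤ Tb (Real.log m) → ∀ t t', |hC e1 J m t - hC e1 J m t'| ≤ |t - t'| := by
  obtain ⟨C, hC0, H⟩ := hC_lip he
  have h1 := (Real.tendsto_log_atTop.comp tendsto_natCast_atTop_atTop).eventually_ge_atTop
    (16 / 3 * (C * J))
  obtain ⟨m0, hm0⟩ := eventually_atTop.1 h1
  refine ⟨m0, fun m hm he1 hT t t' => (H J hJ m he1 hT t t').trans ?_⟩
  have a1 : 16 / 3 * (C * J) ≤ Real.log m := hm0 m hm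
  have a2 : C * J / Tb (Real.log m) ≤ 1 / 2 := by
    rw [div_le_iff₀ (by linarith)]
    unfold Tb
    linarith
  have a3 := aC_le
  calc (aC + C * J / Tb (Real.log m)) * |t - t'| ≤ 1 * |t - t'| :=
        mul_le_mul_of_nonneg_right (by linarith) (abs_nonneg _)
    _ = |t - t'| := one_mul _

variable [NUSea.Sea]

/-- **the curve of TARGET-C is admissible**, every number of rows `m ≥ m0` -/
theorem exists_crvC {e1 J : ℝ} (he : 0 < e1) (he1 : e1 ≤ 1 / 100) (hJ : 0 ≤ J) :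
    ∃ Cc : ℝ, 1 ≤ Cc ∧ ∃ m0 : ℕ, 1 ≤ m0 ∧ ∀ m : ℕ, m0 ≤ m → 20 ≤ Tb (Real.log m) ∧
      CrvP e1 Cc m (etaC e1 J m m) (etaC' e1 J m m) := by
  obtain ⟨C, hC, m1, hm1, H⟩ := exists_curC he he1 hJ (x := 1 / 100) (by norm_num)
  obtain ⟨m2, H2⟩ := slope_hC he J hJ
  refine ⟨C, hC, max m1 m2, hm1.trans (le_max_left _ _), fun m hm => ?_⟩
  have k1 : m1 ≤ m := (le_max_left _ _).trans hm
  have k2 : m2 ≤ m := (le_max_right _ _).trans hm
  obtain ⟨hT, Hs⟩ := H m k1
  have hmp : (0 : ℝ) < m := by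
    have : 0 < m := lt_of_lt_of_le (by omega) (hm1.trans k1)
    exact_mod_cast this
  obtain ⟨ε, e, h1, h2, h3, h4⟩ := Hs m (by linarith)
  exact ⟨hT,
    { cur := ⟨ε, e, h1, h2, h3, h4⟩
      d := etaC_hasDeriv e1 J m m
      c := etaC'_cont e1 J m m
      nn := etaC_nonneg he1 hJ hT hmp.le
      lip := fun t t' => by
        rw [mul_etaC hmp, mul_etaC hmp]
        exact H2 m k2 he1 hT t t' }⟩

end

end PotH.PLX
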