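import Pool.Agent.PLX.PotH.Adm
import Pool.Agent.PLX.NUSea.H0.ShlC
import Pool.Agent.NUO.Act

/-!
# A common majorant of the cutoffs

The cutoffs of the two species are powers of one function; both are at most
`1 + exp (-c m e^{-p |t|})` and at most `C m e^{-p |t|}`.  `crM` is a common majorant, analytic in the
bulk: **`exists_crM`**: it is an admissible cutoff.
-/

set_option autoImplicit false
set_option linter.unusedSectionVars false

open MeasureTheory Set Filter Topology

namespace PotH.PLX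

open NUO (Tb)

noncomputable section

/-- `2 cosh (p z)` -/
def chp (p : ℝ) (z : ℂ) : ℂ := Complex.exp (p * z) + Complex.exp (-(p * z))

/-- `2 cosh (p t)` -/
def chr (p t : ℝ) : ℝ := Real.exp (p * t) + Real.exp (-(p * t))

lemma chr_pos (p t : ℝ) : 0 < chr p t := by unfold chr; positivity

lemma chp_ofReal (p t : ℝ) : chp p t = (chr p t : ℂ) := by
  unfold chp chr
  push_cast
  rfl

lemma chr_bd {p : ℝ} (hp : 0 ≤ p) (t : ℝ) :
    Real.exp (p * |t|) ≤ chr p t ∧ chr p t ≤ 2 * Real.exp (p * |t|) := by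
  unfold chr
  have h1 : Real.exp (p * t) ≤ Real.exp (p * |t|) :=
    Real.exp_le_exp.2 (mul_le_mul_of_nonneg_left (le_abs_self t) hp)
  have h2 : Real.exp (-(p * t)) ≤ Real.exp (p * |t|) := by
    refine Real.exp_le_exp.2 ?_
    have := mul_le_mul_of_nonneg_left (neg_abs_le t) hp
    linarith
  refine ⟨?_, by linarith⟩
  rcases abs_cases t with h | h
  · rw [h.1]
    have := Real.exp_pos (-(p * t))
    linarith
  · rw [h.1]
    have := Real.exp_pos (p * t)
    have e : p * -t = -(p * t) := by ring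
    rw [e]
    linarith

/-- the function of the majorant, comparison with the exponential -/
lemma inv_chr {p : ℝ} (hp : 0 ≤ p) (t : ℝ) :
    Real.exp (-p * |t|) / 2 ≤ 1 / chr p t ∧ 1 / chr p t ≤ Real.exp (-p * |t|) := by
  obtain ⟨h1, h2⟩ := chr_bd hp t
  have h0 := chr_pos p t
  have e : Real.exp (-p * |t|) * Real.exp (p * |t|) = 1 := by
    rw [← Real.exp_add]
    simp
  have h3 := Real.exp_pos (-p * |t|)
  constructor
  · rw [le_div_iff₀ h0]
    clear * - e h2 h3
    nlinarith
  · rw [div_le_iff₀ h0]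
    clear * - e h1 h3
    nlinarith

/-- near the line -/
lemma chp_strip {p : ℝ} (hp : 0 ≤ p) {z : ℂ} (hz : |p * z.im| ≤ 1) :
    chp p z ≠ 0 ∧ Real.exp (-p * |z.re|) / 4 ≤ (1 / chp p z).re := by
  have hcos : 1 / 2 ≤ Real.cos (p * z.im) := by
    have h1 := Real.one_sub_sq_div_two_le_cos (x := p * z.im)
    have h2 : (p * z.im) ^ 2 ≤ 1 := by
      rw [← sq_abs]
      have := abs_nonneg (p * z.im)
      clear * - hz this
      nlinarith
    linarith
  have h0 := chr_pos p z.re
  have hre : (chp p z).re = chr p z.re * Real.cos (p * z.im) := by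
    unfold chp chr
    rw [Complex.add_re, Complex.exp_re, Complex.exp_re]
    simp only [Complex.mul_re, Complex.ofReal_re, Complex.ofReal_im, zero_mul, sub_zero,
      Complex.mul_im, add_zero, Complex.neg_re, Complex.neg_im, Real.cos_neg]
    ring
  have hn : ‖chp p z‖ ≤ chr p z.re := by
    unfold chp chr
    refine (norm_add_le _ _).trans (le_of_eq ?_)
    rw [Complex.norm_exp, Complex.norm_exp]
    simp
  have hpos : 0 < (chp p z).re := by
    rw [hre]
    positivity
  have hne : chp p z ≠ 0 := by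
    intro h
    rw [h] at hpos
    simp at hpos
  refine ⟨hne, ?_⟩
  have hn0 : 0 < ‖chp p z‖ := norm_pos_iff.2 hne
  have e1 : (1 / chp p z).re = (chp p z).re / ‖chp p z‖ ^ 2 := by
    rw [one_div, Complex.inv_re, Complex.normSq_eq_norm_sq]
  rw [e1, hre]
  obtain ⟨-, h2⟩ := chr_bd hp z.re
  have h4 : 1 / (2 * chr p z.re) ≤ chr p z.re * Real.cos (p * z.im) / ‖chp p z‖ ^ 2 := by
    rw [div_le_div_iff₀ (by positivity) (by positivity)]
    have h5 : ‖chp p z‖ ^ 2 ≤ chr p z.re ^ 2 := pow_le_pow_left₀ hn0.le hn 2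
    clear * - h5 hcos
    nlinarith [mul_le_mul_of_nonneg_left hcos (sq_nonneg (chr p z.re))]
  refine le_trans ?_ h4
  rw [div_le_div_iff₀ (by positivity) (by positivity)]
  have e : Real.exp (-p * |z.re|) * Real.exp (p * |z.re|) = 1 := by
    rw [← Real.exp_add]
    simp
  have h3 := Real.exp_pos (-p * |z.re|)
  clear * - e h2 h3
  nlinarith

/-- **the common majorant** -/
def crM (p c C : ℝ) (m : ℕ) (t : ℝ) : ℝ :=
  min (1 + Real.exp (-(c * (m * (1 / chr p t))))) (C * (m * Real.exp (-p * |t|)))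

/-- its logarithm in the bulk -/
def crL (p c : ℝ) (m : ℕ) (z : ℂ) : ℂ := Complex.log (1 + Complex.exp (-(c * (m * (1 / chp p z)))))

lemma crL_real (p c : ℝ) (m : ℕ) (t : ℝ) :
    Real.exp (crL p c m t).re = 1 + Real.exp (-(c * (m * (1 / chr p t)))) := by
  have e : (1 : ℂ) + Complex.exp (-(c * (m * (1 / chp p t)))) =
      ((1 + Real.exp (-(c * (m * (1 / chr p t)))) : ℝ) : ℂ) := by
    rw [chp_ofReal]
    push_cast
    rfl
  have h0 : (0 : ℝ) < 1 + Real.exp (-(c * (m * (1 / chr p t)))) := by positivity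
  unfold crL
  rw [e, ← Complex.ofReal_log h0.le, Complex.ofReal_re, Real.exp_log h0]

/-- **the logarithm is analytic and tiny in the bulk** -/
theorem crL_bd {p c κ : ℝ} (hp : 0 ≤ p) (hp1 : p ≤ 8 / 3) (hc : 0 < c) (hκ : p * κ ≤ 1) {e : ℝ}
    (he : 0 < e) {A : ℝ} (hA : 0 < A) : ∃ m0 : ℕ, 1 ≤ m0 ∧ ∀ m ≥ m0, ∀ z : ℂ,
      |z.re| ≤ (1 - e) * (3 / 8 * Real.log m) + 2 → |z.im| ≤ κ →
      DifferentiableAt ℂ (crL p c m) z ∧ ‖crL p c m z‖ ≤ A := by
  have ht1 : Tendsto (fun m : ℕ => (m : ℝ) ^ e) atTop atTop :=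
    (tendsto_rpow_atTop he).comp tendsto_natCast_atTop_atTop
  obtain ⟨m2, hm2⟩ := eventually_atTop.1 (ht1.eventually_ge_atTop
    ((2 + 2 / A) * 4 * Real.exp 6 / c))
  refine ⟨max 1 m2, le_max_left _ _, fun m hm z hz hz' => ?_⟩
  have hmr : (1 : ℝ) ≤ m := by exact_mod_cast (le_max_left _ _).trans hm
  have hmp : (0 : ℝ) < m := by (clear * - hmr; linarith)
  have hL := Real.log_nonneg hmr
  have hm3 := hm2 m ((le_max_right _ _).trans hm)
  obtain ⟨h1, h2⟩ := chp_strip (p := p) hp (z := z) (by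
    rw [abs_mul, abs_of_nonneg hp]
    exact (mul_le_mul_of_nonneg_left hz' hp).trans hκ)
  -- the exponent
  have h3 : Real.exp (-6) * (m : ℝ) ^ e ≤ m * Real.exp (-p * |z.re|) := by
    rw [Real.rpow_def_of_pos hmp, ← Real.exp_add]
    have e0 : (m : ℝ) * Real.exp (-p * |z.re|) = Real.exp (Real.log m + -p * |z.re|) := by
      rw [Real.exp_add, Real.exp_log hmp]
    rw [e0]
    refine Real.exp_le_exp.2 ?_
    have h4 : p * |z.re| ≤ 8 / 3 * |z.re| := mul_le_mul_of_nonneg_right hp1 (abs_nonneg _)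
    clear * - hz h4
    nlinarith
  have h4 : 2 + 2 / A ≤ c * (m * (Real.exp (-p * |z.re|) / 4)) := by
    have h5 : (2 + 2 / A) * 4 * Real.exp 6 ≤ c * (m : ℝ) ^ e := by
      rw [div_le_iff₀ hc] at hm3
      linarith
    have h6 : Real.exp 6 * Real.exp (-6) = 1 := by
      rw [← Real.exp_add]
      simp
    have h7 : (2 + 2 / A) * 4 ≤ c * (Real.exp (-6) * (m : ℝ) ^ e) := by
      have h8 := mul_le_mul_of_nonneg_right h5 (Real.exp_pos (-6)).le
      have e1 : (2 + 2 / A) * 4 * Real.exp 6 * Real.exp (-6) = (2 + 2 / A) * 4 := by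
        rw [mul_assoc, h6, mul_one]
      rw [e1] at h8
      clear * - h8
      linarith
    have h9 := mul_le_mul_of_nonneg_left h3 hc.le
    clear * - h7 h9
    linarith
  have hw : ‖Complex.exp (-(c * (m * (1 / chp p z))))‖ ≤ 1 / (2 + 2 / A) := by
    rw [Complex.norm_exp]
    have e2 : (-((c : ℂ) * (m * (1 / chp p z)))).re = -(c * (m * (1 / chp p z).re)) := by
      have e3 : (-((c : ℂ) * (m * (1 / chp p z)))) = ((-(c * m) : ℝ) : ℂ) * (1 / chp p z) := by
        push_cast
        ring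
      rw [e3, Complex.re_ofReal_mul]
      ring
    rw [e2]
    have h5 : c * (m * (Real.exp (-p * |z.re|) / 4)) ≤ c * (m * (1 / chp p z).re) := by (clear * - h2 hmr hc; gcongr)
    have h6 : 2 + 2 / A ≤ Real.exp (c * (m * (1 / chp p z).re)) := by
      have := Real.add_one_le_exp (c * (m * (1 / chp p z).re))
      clear * - h4 h5 this
      linarith
    rw [Real.exp_neg, ← one_div]
    exact one_div_le_one_div_of_le (by positivity) h6
  have hw2 : ‖Complex.exp (-(c * (m * (1 / chp p z))))‖ ≤ 1 / 2 := by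
    refine hw.trans ?_
    have : 0 ≤ 2 / A := by positivity
    exact one_div_le_one_div_of_le (by norm_num) (by (clear * - this; linarith))
  have hd : DifferentiableAt ℂ (chp p) z := by
    unfold chp
    fun_prop
  constructor
  · unfold crL
    refine DifferentiableAt.clog ?_ ?_
    · have h5 : DifferentiableAt ℂ (fun z => 1 / chp p z) z := (differentiableAt_const _).div hd h1
      fun_prop
    · refine Or.inl ?_
      rw [Complex.add_re, Complex.one_re]
      have := (abs_le.1 ((Complex.abs_re_le_norm _).trans hw2)).1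
      clear * - this
      linarith
  · unfold crL
    refine (Complex.norm_log_one_add_half_le_self hw2).trans ?_
    have h5 : 3 / 2 * (1 / (2 + 2 / A)) ≤ A := by
      rw [mul_one_div, div_le_iff₀ (by positivity)]
      have : A * (2 + 2 / A) = 2 * A + 2 := by field_simp
      clear * - hA this
      linarith
    clear * - hw h5
    linarith

variable [NUSea.Sea]

/-- **the common majorant is an admissible cutoff** -/
theorem exists_crM {ep c C : ℝ} (hep : 0 < ep) (hep1 : ep ≤ 1 / 100) (hc : 0 < c) (hC : 1 ≤ C)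
    {e1 : ℝ} (he : 0 < e1) : ∃ C0 : ℝ, 1 ≤ C0 ∧ ∃ m0 : ℕ, 1 ≤ m0 ∧ ∀ m ≥ m0,
      ∃ cr Bc Bc' : ℝ → ℝ, CutR ep C0 ((1 - e1) * Tb (Real.log m)) m cr Bc Bc' ∧
        ∀ t x : ℝ, x ≤ 1 + Real.exp (-(c * (m * Real.exp (-(8 / 3 * (1 - ep)) * |t|)))) →
          x ≤ C * (m * Real.exp (-(8 / 3 * (1 - ep)) * |t|)) → x ≤ cr t := by
  obtain ⟨p, hp⟩ : ∃ p : ℝ, p = 8 / 3 * (1 - ep) := ⟨_, rfl⟩
  have hp0 : 0 < p := by rw [hp]; (clear * - hep hep1; linarith)
  have hp1 : p ≤ 8 / 3 := by rw [hp]; (clear * - hep; linarith)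
  rw [← hp]
  obtain ⟨C2, hC2, HC2⟩ := NUR2.ext_anal 4 (κ := ep / 2) (by (clear * - hep; linarith)) (by (clear * - hep hep1; linarith))
  obtain ⟨m1, hm1, HL⟩ := crL_bd (p := p) (c := c) (κ := ep / 2) hp0.le hp1 hc (by (clear * - hep1 hep hp; nlinarith)) he
    (A := 1 / C2) (by positivity)
  obtain ⟨C0, hC0, HB⟩ := NUSea.PLX.H0.exists_Bl (p := p) (c := c / 2) (C1 := C)
    hp0 hp1 (by (clear * - hc; linarith)) (by (clear * - hep hep1 hC; linarith))
  have ht1 : Tendsto (fun m : ℕ => (m : ℝ) ^ e1) atTop atTop :=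
    (tendsto_rpow_atTop he).comp tendsto_natCast_atTop_atTop
  obtain ⟨m2, hm2⟩ := eventually_atTop.1 (ht1.eventually_ge_atTop 2)
  refine ⟨C0, hC0, max m1 m2, hm1.trans (le_max_left _ _), fun m hm => ?_⟩
  have hmm1 := (le_max_left m1 m2).trans hm
  have hmm2 := hm2 m ((le_max_right m1 m2).trans hm)
  have hm0 : 1 ≤ m := hm1.trans hmm1
  have hmr : (1 : ℝ) ≤ m := by exact_mod_cast hm0
  have hmp : (0 : ℝ) < m := by (clear * - hep hep1 hmr; linarith)
  obtain ⟨B, B', g1, g2, g3, g4, -, -, g7, g8, g9, g10, g11⟩ := HB m hm0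
  have hB' : B' = deriv B := funext fun t => (g2 t).deriv.symm
  have key : ∀ t, crM p c C m t ≤ 1 + Real.exp (-(c / 2 * (m * Real.exp (-p * |t|)))) ∧
      crM p c C m t ≤ C * (m * Real.exp (-p * |t|)) := by
    intro t
    refine ⟨(min_le_left _ _).trans ?_, min_le_right _ _⟩
    have h1 := (inv_chr hp0.le t).1
    have h2 : c / 2 * (m * Real.exp (-p * |t|)) ≤ c * (m * (1 / chr p t)) := by
      have h3 : c * (m * (Real.exp (-p * |t|) / 2)) ≤ c * (m * (1 / chr p t)) := by (clear * - h1 hm0 hc; gcongr)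
      clear * - h3
      linarith
    have h3 := Real.exp_le_exp.2 (neg_le_neg h2)
    linarith
  refine ⟨crM p c C m, B, B', ?_, fun t x hx1 hx2 => le_min (hx1.trans ?_) hx2⟩
  · refine ⟨?_, fun t => ?_, g2, ?_, g3, g4, g7, g8, g9, g10, fun t => (g11 t _ (key t).1 (key t).2).1,
      fun t => ?_, fun t => ?_, ?_⟩
    · unfold crM chr
      fun_prop
    · unfold crM
      have := chr_pos p t
      have h1 : 0 ≤ C := by linarith
      exact le_min (by positivity) (by positivity)
    · rw [hB']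
      exact g1.continuous_deriv (by norm_num)
    · refine (min_le_left _ _).trans ?_
      have h2 : Real.exp (-(c * (m * (1 / chr p t)))) ≤ 1 := by
        rw [Real.exp_le_one_iff]
        have := chr_pos p t
        have : 0 ≤ c * (m * (1 / chr p t)) := by positivity
        linarith
      linarith
    · exact (g11 t _ (key t).1 (key t).2).2.trans (le_of_eq (by rw [← hp]))
    · have h0 : NUOC.O 4 1 (fun _ : ℝ => (0 : ℝ)) := NUOC.O.const 4 (by simp)
      have hext := HC2 (b := (1 - e1) * Tb (Real.log m)) (A := 1 / C2) (F := crL p c m)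
        (η := fun _ => 0) (by positivity)
        (fun z hz => (HL m hmm1 z (by
          have h1 := hz.1
          unfold Tb at h1
          exact h1.le) hz.2.le).1.differentiableWithinAt)
        (fun z h2 h3 => (HL m hmm1 z (by
          unfold Tb at h2
          exact h2.le) h3.le).2) h0 (fun x => by rw [abs_zero]; (clear * - hep; linarith))
      rw [mul_one_div_cancel (by linarith)] at hext
      refine ⟨_, hext, fun t ht => ?_⟩
      have e0 : ((t : ℂ) + ((0 : ℝ) : ℂ) * Complex.I) = (t : ℂ) := by simp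
      simp only [e0]
      rw [crL_real]
      unfold crM
      refine min_eq_left ?_
      have h1 : Real.exp (-(c * (m * (1 / chr p t)))) ≤ 1 := by
        rw [Real.exp_le_one_iff]
        have := chr_pos p t
        have : 0 ≤ c * (m * (1 / chr p t)) := by positivity
        clear * - this
        linarith
      have h2 : (m : ℝ) ^ e1 ≤ m * Real.exp (-p * |t|) := by
        have e3 : (m : ℝ) * Real.exp (-p * |t|) = Real.exp (Real.log m + -p * |t|) := by
          rw [Real.exp_add, Real.exp_log hmp]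
        rw [Real.rpow_def_of_pos hmp, e3]
        refine Real.exp_le_exp.2 ?_
        have h4 : p * |t| ≤ 8 / 3 * |t| := mul_le_mul_of_nonneg_right hp1 (abs_nonneg _)
        unfold Tb at ht
        clear * - ht h4
        nlinarith
      have h3 : 0 ≤ m * Real.exp (-p * |t|) := by positivity
      clear * - hC hmm2 h1 h2 hep hep1
      nlinarith
  · have h1 := (inv_chr hp0.le t).2
    have h2 : c * (m * (1 / chr p t)) ≤ c * (m * Real.exp (-p * |t|)) := by (clear * - h1 hm0 hc; gcongr)
    have h3 := Real.exp_le_exp.2 (neg_le_neg h2)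
    clear * - h3
    linarith

end

end PotH.PLX
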