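import Pool.Agent.PLX.Ns
import Pool.Agent.PotH.CutB
import Pool.Agent.PLX.PotH.CrM
import Pool.Agent.PLX.NUSea.H0.ShlC2
import Pool.Agent.NUP1.HomB

/-!
# Plan B: one admissible cutoff for the rows of both species

**`exists_cutQ`**: for `m ≥ m0` there is one admissible cutoff `cr` (majorant `Bc`) such that for every
`m'`, `m ≤ m' ≤ Q m`, every list `W` of rows and cutoff points, `W ~ 0^K ++ ex`, `m' ≤ K + n0`,
`K ≤ 3 m'`, at most `n0` points `ex`, `|re x| ≤ l / 5`, `|im x| ≤ h0`, and every curve `0 ≤ η ≤ 1 / 100`: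
`‖phi ((4 / 3) (1 - ep)) W (pA η t)‖ ≤ cr t`.
-/

set_option autoImplicit false
set_option linter.unusedSectionVars false

open MeasureTheory Set Filter Topology

namespace PotH.PLX

open NUO (Tb)

noncomputable section

/-- the cutoff of a list of rows and cutoff points on the curve -/
def cfW (ep : ℝ) (W : List ℂ) (η : ℝ → ℝ) (t : ℝ) : ℝ :=
  ‖NUP1.phi (4 / 3 * (1 - ep)) W (NUO.pA η t)‖

variable [NUSea.Sea]

/-- **one admissible cutoff for all rows** -/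
theorem exists_cutQ {ep e1 : ℝ} (hep : 0 < ep) (hep1 : ep ≤ 1 / 100) (he : 0 < e1) (n0 : ℕ)
    {hh : ℝ} (hhh : 0 ≤ hh) {Q : ℝ} (hQ : 1 ≤ Q) :
    ∃ C0 : ℝ, 1 ≤ C0 ∧ ∃ m0 : ℕ, 1 ≤ m0 ∧ ∀ m ≥ m0, ∃ cr Bc Bc' : ℝ → ℝ,
      CutR ep C0 ((1 - e1) * Tb (Real.log m)) m cr Bc Bc' ∧
      ∀ m' : ℕ, m ≤ m' → (m' : ℝ) ≤ Q * m → ∀ (K : ℕ) (W ex : List ℂ), RwI n0 hh m' K W ex →
        ∀ η : ℝ → ℝ, (∀ t, 0 ≤ η t) → (∀ t, |η t| ≤ 1 / 100) → ∀ t, cfW ep W η t ≤ cr t := by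
  obtain ⟨c, C, hc, hC, m1, hm1, H⟩ := exists_cutW hep hep1 n0 hhh
  have hCQ : 1 ≤ C * Q := by nlinarith
  obtain ⟨C0, hC0, m2, hm2, H2⟩ := exists_crM (c := c) hep hep1 hc hCQ he
  refine ⟨C0, hC0, max m1 m2, hm1.trans (le_max_left _ _), fun m hm => ?_⟩
  have hmm1 : m1 ≤ m := (le_max_left _ _).trans hm
  have hmm2 : m2 ≤ m := (le_max_right _ _).trans hm
  obtain ⟨cr, Bc, Bc', hcut, hle⟩ := H2 m hmm2
  refine ⟨cr, Bc, Bc', hcut, fun m' h1 h2 K W ex hW η hη0 hη t => hle t _ ?_ ?_⟩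
  all_goals
    have hl1 : NUP1.l - 1 / 100 ≤ (NUO.pA η t).re := by
      rw [NUSea.PLX.H0.pA_re]
      linarith [(abs_le.1 (hη t)).2]
    have hl2 : (NUO.pA η t).re ≤ NUP1.l + ep / 2 := by
      rw [NUSea.PLX.H0.pA_re]
      linarith [hη0 t]
    obtain ⟨k1, k2⟩ := H m' (hmm1.trans h1) K W ex hW (NUO.pA η t) hl1 hl2
    rw [NUSea.PLX.H0.pA_im] at k1 k2
    have hmr : (m : ℝ) ≤ m' := by exact_mod_cast h1
  · unfold cfW
    rw [phi_perm_K hW.perm]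
    refine (norm_sub_le _ _).trans ?_
    rw [norm_one]
    refine add_le_add le_rfl (k1.trans (Real.exp_le_exp.2 (neg_le_neg ?_)))
    have := Real.exp_pos (-(8 / 3 * (1 - ep)) * |t|)
    gcongr
  · refine k2.trans ?_
    have := Real.exp_pos (-(8 / 3 * (1 - ep)) * |t|)
    rw [mul_assoc C Q]
    refine mul_le_mul_of_nonneg_left ?_ (by linarith)
    rw [← mul_assoc Q]
    exact mul_le_mul_of_nonneg_right h2 this.le

end

end PotH.PLX
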