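import Pool.Agent.PLX.Ns
import Pool.Agent.PLX.PotH.CutI0
import Pool.Agent.PLX.PotH.Crv
import Pool.Agent.PLX.KDef

/-!
# Plan B: the cutoffs of the rows of both species are below one admissible cutoff

* **`exists_cutR`**: for `m ≥ m0` there is one admissible cutoff `cr` such that for both species `a`, every
  list `W ~ 0^K ++ ex` of rows and cutoff points of species `a` (number `Fil.ne a m`), every admissible
  curve `η`: `cfW ep W (Fil.cv a η) t ≤ cr t`;
* `RwI.content`: the rows `E`, `K` rows `0` and the points `ex0`; `RwI.axis`: rows `E` on the segment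
  `Ax`, the cutoff points `± i`.
-/

set_option autoImplicit false
set_option linter.unusedSectionVars false

open MeasureTheory Set Filter Topology
open PLX (Fil Ends)

namespace PotH.PLX

open NUO (Tb)

noncomputable section

variable [NUSea.Sea] [Fil] [Ends]

/-- **the cutoffs of the rows of both species are below one admissible cutoff** -/
theorem exists_cutR {ep e1 : ℝ} (hep : 0 < ep) (hep1 : ep ≤ 1 / 100) (he : 0 < e1)
    (_he1 : e1 ≤ 1 / 100) (Cc : ℝ) (n0 : ℕ) {hh : ℝ} (hhh : 0 ≤ hh) :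
    ∃ C0 : ℝ, 1 ≤ C0 ∧ ∃ m0 : ℕ, 1 ≤ m0 ∧ ∀ m ≥ m0, ∃ cr Bc Bc' : ℝ → ℝ,
      CutR ep C0 ((1 - e1) * Tb (Real.log m)) m cr Bc Bc' ∧
      ∀ (a : Bool) (K : ℕ) (W ex : List ℂ), RwI n0 hh (Fil.ne a m) K W ex →
        ∀ η η1 : ℝ → ℝ, CrvP e1 Cc m η η1 → ∀ t, cfW ep W (Fil.cv a η) t ≤ cr t := by
  obtain ⟨C0, hC0, m0, hm0, H⟩ := exists_cutQ hep hep1 he n0 hhh Fil.one_le_qor
  refine ⟨C0, hC0, m0, hm0, fun m hm => ?_⟩
  obtain ⟨cr, Bc, Bc', h1, h2⟩ := H m hm
  exact ⟨cr, Bc, Bc', h1, fun a K W ex hW η η1 hη => h2 _ (Fil.le_ne a m)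
    (Fil.ner_le_qo a (hm0.trans hm)) K W ex hW _ (hη.nncv a) (hη.lecv a)⟩

end

/-- rows `E`, `K` rows `0`, points `ex0` -/
theorem RwI.content {n0 : ℕ} {hh : ℝ} {m K : ℕ} {W E ex0 : List ℂ}
    (hW : W.Perm (E ++ (List.replicate K 0 ++ ex0)))
    (hE : ∀ x ∈ E, |x.re| ≤ NUP1.l / 5 ∧ |x.im| ≤ hh)
    (h0 : ∀ x ∈ ex0, |x.re| ≤ NUP1.l / 5 ∧ |x.im| ≤ hh) (hl : E.length + ex0.length ≤ n0)
    (up : K ≤ 3 * m) (dn : m ≤ K + n0) : RwI n0 hh m K W (E ++ ex0) where
  perm := by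
    refine hW.trans ?_
    rw [← List.append_assoc, ← List.append_assoc]
    exact List.perm_append_comm.append_right _
  len := by rw [List.length_append]; exact hl
  pt := by
    intro x hx
    rcases List.mem_append.1 hx with h | h
    · exact hE x h
    · exact h0 x h
  up := up
  dn := dn

open Pool.Agent.PLX in
/-- rows `E` on the segment, `K` rows `0`, the cutoff points `± i` -/
theorem RwI.axis {n0 : ℕ} {m K : ℕ} {W E : List ℂ}
    (hW : W.Perm (E ++ (List.replicate K 0 ++ [Complex.I, -Complex.I])))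
    (hE : ∀ x ∈ E, Ax x) (hl : E.length + 2 ≤ n0)
    (up : K ≤ 3 * m) (dn : m ≤ K + n0) : RwI n0 1 m K W (E ++ [Complex.I, -Complex.I]) := by
  have h5 : 0 ≤ NUP1.l / 5 := by
    have := NUP1.Bd.l_pos
    positivity
  refine RwI.content hW (fun x hx => ?_) (fun x hx => ?_) (by simpa using hl) up dn
  · obtain ⟨h1, h2⟩ := hE x hx
    rw [h1, abs_zero]
    exact ⟨h5, h2⟩
  · simp only [List.mem_cons, List.not_mem_nil, or_false] at hx
    rcases hx with rfl | rfl
    · simp [h5]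
    · simp [h5]

end PotH.PLX
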