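import Pool.Agent.PLX.Ns
import Pool.Agent.PLX.RowLine
import Pool.Agent.PLX.PB.ValH

/-!
# Plan B: the one body data with the ends at `0`, rows at `0`, on the curve

Sea `NUSea.seaP` (rows at `0`), species `a` on its curve `cv a η`.

* `rwO0_pA`, `rwX0_pA`, **`rw0_vb`**: the factors of rows at `0` on the curve, `Fil.ne a m` rows of the
  own, `Fil.ne (!a) m` rows of the other group: `exp (Re vb (sN m) a)`;
* `Th0`: modulus of the factor of the ends at `0` (one row of both groups taken out); `Hend`: its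
  potential against the ends `± l / 2` of `NUSp.DD pE qE`;
* **`hok_end`**: `Hend` is an admissible potential, constants `B0`, `N0` absolute;
* **`int_end`**: `∫ sN m a P Hend = O(1)` on every admissible curve.
-/

set_option autoImplicit false
set_option linter.unusedSectionVars false

noncomputable section

open MeasureTheory Filter Topology Set Complex
open PLX (Fil Ends)

namespace PotH.PLX

open NUMF (l l_pos)
open NUO (pA Tb yw)
open NUGC.PLX (ThN)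
open NUAct (zt)
open NUKer (iD)
open NUSp (wd wq wph wn)
open PBH (AT)
open PBH.PLX (HS HS' Atm AtOk)
open PBO.PLX (rwO rwX)
open PBV.PLX (Fit yr sin_neF log_bk)

/-! ### the rows at `0` -/

lemma im_zt (η : ℝ → ℝ) (t : ℝ) : (zt (iD η) t).im = η t := by
  unfold NUAct.zt NUKer.iD
  simp

/-- the own factor of a row at `0` on the curve -/
theorem rwO0_pA {η : ℝ → ℝ} {t : ℝ} (h : |η t| < l) :
    rwO 0 (pA η t) = Real.exp (@NUSea.vs NUSea.seaP (zt (iD η) t)).re := by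
  have h1 := Pool.Agent.PLX.own_line (z := zt (iD η) t) (by rw [im_zt]; exact h)
  have e : pA η t = NUP1.l + I * zt (iD η) t := NUBR.line_pt (η t) t
  unfold PBO.PLX.rwO
  rw [NUSea.PLX.vs_seaP, e, sub_zero, ← h1, one_div]

/-- the cross factor of a row at `0` on the curve -/
theorem rwX0_pA {η : ℝ → ℝ} {t : ℝ} (h : |η t| < l) :
    rwX 0 (pA η t) = Real.exp (@NUSea.vx NUSea.seaP (zt (iD η) t)).re := by
  have h1 := Pool.Agent.PLX.cross_line (z := zt (iD η) t) (by rw [im_zt]; exact h)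
  have e : pA η t = NUP1.l + I * zt (iD η) t := NUBR.line_pt (η t) t
  unfold PBO.PLX.rwX
  rw [NUSea.PLX.vx_seaP, e, sub_zero, h1]

/-- `k` rows at `0` of the own, `k'` rows at `0` of the other group -/
theorem rw0_pow {η : ℝ → ℝ} {t : ℝ} (h : |η t| < l) (k k' : ℕ) :
    rwO 0 (pA η t) ^ k * rwX 0 (pA η t) ^ k' =
      Real.exp ((k : ℝ) * (@NUSea.vs NUSea.seaP (zt (iD η) t)).re +
        (k' : ℝ) * (@NUSea.vx NUSea.seaP (zt (iD η) t)).re) := by
  rw [rwO0_pA h, rwX0_pA h, ← Real.exp_nat_mul, ← Real.exp_nat_mul, ← Real.exp_add]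

/-- **the rows at `0`, numbers `Fil.ne a m`** -/
theorem rw0_vb [Fil] [Ends] (m : ℕ) (a : Bool) {η : ℝ → ℝ} {t : ℝ} (h : |η t| < l) :
    rwO 0 (pA η t) ^ Fil.ne a m * rwX 0 (pA η t) ^ Fil.ne (!a) m =
      Real.exp (@NUSea.PLX.vb NUSea.seaP (sN m) a (zt (iD η) t)).re := by
  rw [rw0_pow h]
  congr 1
  unfold NUSea.PLX.vb
  rw [Complex.add_re, Complex.re_ofReal_mul, Complex.re_ofReal_mul]

/-! ### the ends at `0` -/

/-- modulus of the factor of the ends at `0`, one row taken out -/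
def Th0 (u : ℂ) : ℝ := ‖Complex.sin u‖ / ‖Complex.sin (u - 2 * l)‖

theorem Th0_pA {δ : ℝ} {η : ℝ → ℝ} (hδ : 0 < δ) (hδ1 : δ ≤ l) (hη : ∀ t, |η t| ≤ δ / 2) (t : ℝ) :
    0 < Th0 (pA η t) ∧ Real.log (Th0 (pA η t)) = AT (3 * l) (-(3 * l)) 0 η t := by
  have hl := l_pos
  obtain ⟨-, s2, s3⟩ := PBH.PLX.sin_row 0 η t
  rw [Complex.zero_re, Complex.zero_im, sub_zero] at s2
  rw [Complex.zero_re, Complex.zero_im, sub_zero] at s3
  rw [zero_add] at s2
  rw [zero_sub] at s3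
  have p1 := PBH.PLX.pw_norm (c := 0) (y := 3 * l) hδ (by linarith)
    (by rw [abs_of_pos (by linarith)]; linarith) hη t
  have p2 := PBH.PLX.pw_norm (c := 0) (y := -(3 * l)) hδ (by linarith)
    (by rw [abs_neg, abs_of_pos (by linarith)]; linarith) hη t
  unfold Th0
  rw [s2, s3]
  exact ⟨by positivity, by rw [Real.log_div p1.ne' p2.ne', PBH.PLX.AT_log]⟩

/-- its atoms -/
def aend (_a : Bool) : Fin 3 → Atm := ![⟨1, 3 * l, -(3 * l), 0⟩,
  ⟨-(1 / 2), 7 / 2 * l, -(7 / 2 * l), 0⟩, ⟨-(1 / 2), 5 / 2 * l, -(5 / 2 * l), 0⟩]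

lemma aend_ok {δ : ℝ} (hδ1 : δ ≤ l / 2) : AtOk 1 δ aend := by
  have hl := l_pos
  intro a i
  fin_cases i
  all_goals refine ⟨abs_le.2 ⟨?_, ?_⟩, abs_le.2 ⟨?_, ?_⟩, abs_le.2 ⟨?_, ?_⟩⟩
  all_goals simp [aend]
  all_goals linarith

variable [Fil]

/-- **the potential of the ends at `0`** against the ends `± l / 2`, species `a` on its curve -/
def Hend (η : ℝ → ℝ) (a : Bool) (t : ℝ) : ℝ :=
  Real.log (Th0 (pA (Fil.cv a η) t)) - Real.log (ThN (pA (Fil.cv a η) t))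

theorem Hend_eq {δ : ℝ} {η : ℝ → ℝ} (hδ : 0 < δ) (hδ1 : δ ≤ l / 2) (hη : ∀ t, |η t| ≤ δ / 2) :
    Hend η = HS aend fun a => Fil.cv a η := by
  have hl := l_pos
  funext a t
  have hη' : ∀ t, |Fil.cv a η t| ≤ δ / 2 := fun t => Fil.abs_cv_le_of (hη t)
  have e1 := (Th0_pA hδ (by linarith) hη' t).2
  have e4 := (PBH.PLX.ThN_pA hδ hδ1 hη' t).2
  unfold Hend HS aend
  rw [e1, e4]
  simp only [Fin.sum_univ_succ, Matrix.cons_val_zero, Matrix.cons_val_succ, Fin.sum_univ_zero,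
    Matrix.cons_val_fin_one]
  ring

section
variable [NUSea.Sea]

/-- **the ends at `0` are an admissible potential**, `B0`, `N0` absolute -/
theorem hok_end : ∃ B0 N0 : ℝ, 0 ≤ B0 ∧ 0 ≤ N0 ∧ ∀ e1 : ℝ, 0 < e1 → ∃ m0 : ℕ, ∀ m : ℕ,
    m0 ≤ m → ∀ (Cc : ℝ) (η η1 : ℝ → ℝ), CrvP e1 Cc m η η1 →
      (∀ a t, |Fil.cv a η t| ≤ l / 8 ∧ 0 < Th0 (pA (Fil.cv a η) t) ∧
        0 < ThN (pA (Fil.cv a η) t) ∧
        Th0 (pA (Fil.cv a η) t) = ThN (pA (Fil.cv a η) t) * Real.exp (Hend η a t)) ∧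
      ∃ H' : Bool → ℝ → ℝ, ∀ th b : ℝ, 0 ≤ th →
        HOk B0 N0 th b (Real.log m ^ 3) (Hend η) H' := by
  have hl := l_pos
  have h8 := PBH.l8
  have hpi := Real.pi_lt_four
  obtain ⟨B0, N0, hB0, hN0, A0, hA0, H⟩ := PBH.PLX.hok_sm 3 (K := 1) (δ := l / 2) zero_le_one
    (by linarith) (by linarith)
  refine ⟨B0, N0, hB0, hN0, fun e1 he1 => ?_⟩
  have t1 : Tendsto (fun m : ℕ => (m : ℝ) ^ (-(e1 / 2))) atTop (𝓝 0) :=
    (tendsto_rpow_neg_atTop (by linarith : 0 < e1 / 2)).comp tendsto_natCast_atTop_atTop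
  have t2 : Tendsto (fun m : ℕ => Real.log m ^ 3) atTop atTop :=
    (tendsto_pow_atTop (by norm_num)).comp (Real.tendsto_log_atTop.comp tendsto_natCast_atTop_atTop)
  obtain ⟨m1, hm1⟩ := eventually_atTop.1 ((t1.eventually (ge_mem_nhds (by linarith :
    (0 : ℝ) < l / 2 / 4))).and (t2.eventually_ge_atTop A0))
  refine ⟨m1, fun m hm Cc η η1 hη => ?_⟩
  obtain ⟨a1, a2⟩ := hm1 m hm
  have hS := PBH.PLX.sm_of hη a1
  have hη2 : ∀ t, |η t| ≤ l / 2 / 2 := fun t => (hS.le t).trans (by linarith)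
  have hη3 : ∀ a t, |Fil.cv a η t| ≤ l / 2 / 2 := fun a t => Fil.abs_cv_le_of (hη2 t)
  refine ⟨fun a t => ⟨Fil.abs_cv_le_of ((hS.le t).trans (by linarith)), ?_⟩,
    HS' aend (fun a => Fil.cv a η) (fun a => Fil.cv a η1), fun th b hth => ?_⟩
  · have p1 := (Th0_pA (by linarith : 0 < l / 2) (by linarith) (hη3 a) t).1
    have p4 := (PBH.PLX.ThN_pA (by linarith : 0 < l / 2) le_rfl (hη3 a) t).1
    refine ⟨p1, p4, ?_⟩
    unfold Hend
    rw [Real.exp_sub, Real.exp_log p1, Real.exp_log p4]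
    field_simp
  · rw [Hend_eq (by linarith : 0 < l / 2) le_rfl hη2]
    exact H _ _ (fun a => hS.cv a) _ (aend_ok le_rfl) th b _ hth a2

end

/-! ### the linear term of the ends at `0` -/

/-- word of the ends at `0` -/
def L0 : List (ℤ × ℝ) := [(0, 1), (-2, -1)]

lemma y0 : yw 0 0 = 3 * l ∧ yw 0 (-2) = -(3 * l) := by
  have hl := l_pos
  obtain ⟨-, h0, h2⟩ := yr (x := 0) (by rw [Complex.zero_re, abs_zero]; positivity)
  rw [Complex.zero_re] at h0 h2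
  exact ⟨by rw [h0]; ring, by rw [h2]; ring⟩

lemma fit_0 : Fit (1 / 10) L0 0 := by
  have hl := l_pos
  obtain ⟨h0, h1⟩ := y0
  intro kc hk
  simp only [L0, List.mem_cons, List.not_mem_nil, or_false] at hk
  rcases hk with rfl | rfl
  · show |yw 0 0| ≤ _
    rw [h0, abs_le]; constructor <;> linarith
  · show |yw 0 (-2)| ≤ _
    rw [h1, abs_le]; constructor <;> linarith

lemma wph_0 : wph L0 0 = 6 * l := by
  obtain ⟨h0, h1⟩ := y0
  simp only [L0, NUSp.wph_cons, NUSp.wph_nil]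
  rw [h0, h1]
  ring

lemma wq_0 : wq L0 = 0 := by
  simp only [L0, NUSp.wq_cons, NUSp.wq_nil]
  norm_num

/-- the factor of the ends at `0` is the word -/
lemma log_Th0 {ζ : ℂ} (hζ : |ζ.im| < 1 / 10 * l) :
    Real.log (Th0 (l + I * ζ)) = (wd L0 0 ζ).re := by
  have hF := fit_0
  have s0 : 0 < ‖Complex.sin (((l : ℂ) + I * ζ) - 0 + ((0 : ℤ) : ℂ) * l)‖ :=
    sin_neF (hF (0, 1) (by simp [L0])) hζ
  have s2 : 0 < ‖Complex.sin (((l : ℂ) + I * ζ) - 0 + ((-2 : ℤ) : ℂ) * l)‖ :=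
    sin_neF (hF (-2, -1) (by simp [L0])) hζ
  simp only [L0, NUSp.wd_cons, NUSp.wd_nil, Complex.add_re, Complex.re_ofReal_mul,
    Complex.zero_re, log_bk]
  have e0 : (l : ℂ) + I * ζ = (l + I * ζ) - 0 + ((0 : ℤ) : ℂ) * l := by
    push_cast
    ring
  have e2 : (l : ℂ) + I * ζ - 2 * l = (l + I * ζ) - 0 + ((-2 : ℤ) : ℂ) * l := by
    push_cast
    ring
  unfold Th0
  rw [← e0] at s0
  rw [e2, ← e0, Real.log_div s0.ne' s2.ne']
  ring

/-- on the line the ends have modulus one -/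
lemma re_0 (t : ℝ) : (wd L0 0 t).re = 0 := by
  have hl := l_pos
  rw [← log_Th0 (by rw [Complex.ofReal_im, abs_zero]; positivity)]
  have hll : (l : ℂ) + I * t - 2 * l = -((starRingEnd ℂ) ((l : ℂ) + I * t)) := by
    simp only [map_add, map_mul, Complex.conj_ofReal, Complex.conj_I]
    ring
  unfold Th0
  rw [hll, Complex.sin_neg, norm_neg, Complex.sin_conj, RCLike.norm_conj]
  rcases eq_or_ne ‖Complex.sin ((l : ℂ) + I * t)‖ 0 with h | h
  · rw [h]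
    simp
  · rw [div_self h, Real.log_one]

section P0

attribute [local instance] NUSea.seaP

/-- **the ends at `0` against the sea** -/
theorem exists_th0 : ∃ C : ℝ, 1 ≤ C ∧ ∀ {s ε M b : ℝ} {e η η1 : ℝ → ℝ}, 0 ≤ s →
    ε ≤ 1 / 100 → NUSea.PLX.Cur s ε M b e η → (∀ t, HasDerivAt η (η1 t) t) → 0 ≤ b →
    (∀ t, |NUSea.PLX.hd s η η1 t| ≤ 1) →
      Integrable (fun t => s * NUSea.P t * Real.log (Th0 (pA η t))) ∧
      |(∫ t, s * NUSea.P t * Real.log (Th0 (pA η t))) +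
          12 * l * (s * NUSea.P 0 * η 0)| ≤ C * (1 + b * (M * ε)) := by
  obtain ⟨C, hC, H⟩ := PBV.PLX.exists_word
  refine ⟨C, hC, ?_⟩
  intro s ε M b e η η1 hs hε hcur h1 hb hA
  have hl := l_pos
  have hll : l = Real.pi / 8 := rfl
  have hp3 := Real.pi_gt_three
  have hp4 := Real.pi_le_four
  obtain ⟨i1, i2, h3⟩ := H hs hε hcur h1 hb hA L0 0 fit_0 wq_0 (by
    rw [wph_0, abs_of_pos (by positivity)]; linarith) (by
    simp only [L0, NUSp.wn_cons, NUSp.wn_nil]; norm_num)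
  rw [wph_0, Complex.zero_im] at h3
  have him : ∀ t, (zt (iD η) t).im = η t := fun t => by simp [NUAct.zt, iD]
  have hη : ∀ t, |η t| ≤ ε := fun t => (NUSea.PLX.H0.lc_le hcur t).trans (hcur.le t)
  have c1 : ∀ t, (wd L0 0 (zt (iD η) t)).re = Real.log (Th0 (pA η t)) := fun t => by
    rw [PBV.PLX.pA_zt, log_Th0 (by rw [him]; linarith [hη t])]
  simp only [c1] at i1 h3
  simp only [re_0, mul_zero, integral_zero, sub_zero] at h3
  refine ⟨i1, ?_⟩
  rw [show 12 * l = 2 * (6 * l) by ring]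
  exact h3

/-- the current of an admissible curve has slope at most one -/
theorem CrvP.hd_le {e1 Cc : ℝ} {m : ℕ} {η η1 : ℝ → ℝ} (h : CrvP e1 Cc m η η1) (t : ℝ) :
    |NUSea.PLX.hd m η η1 t| ≤ 1 := by
  have h1 := NUSea.PLX.hasDerivAt_hd (m : ℝ) h.d t
  have h2 : LipschitzWith 1 fun t => (m : ℝ) * NUSea.P t * η t :=
    LipschitzWith.of_dist_le_mul fun x y => by
      rw [Real.dist_eq, Real.dist_eq, NNReal.coe_one, one_mul]
      exact h.lip x y
  have h3 := norm_deriv_le_of_lipschitz (x₀ := t) h2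
  rwa [h1.deriv, Real.norm_eq_abs, NNReal.coe_one] at h3

/-- **`∫ sN m a P Hend = O(1)`** on every admissible curve -/
theorem int_end [Ends] {e1 Cc : ℝ} (he : 0 < e1) (he1 : e1 ≤ 1) (hCc : 0 ≤ Cc) : ∃ C : ℝ, 0 ≤ C ∧
    ∀ (m : ℕ) (η η1 : ℝ → ℝ), 1 ≤ m → CrvP e1 Cc m η η1 → ∀ a : Bool,
      |∫ t, sN m a * NUSea.P t * Hend η a t| ≤ C := by
  obtain ⟨C1, hC1, H1⟩ := exists_th0
  obtain ⟨C2, hC2, H2⟩ := PBV.PLX.exists_th
  refine ⟨(Fil.qo : ℕ) * ((C1 + C2) * (1 + Cc * (16 / e1 ^ 2))), by positivity, ?_⟩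
  intro m η η1 hm hcv a
  obtain ⟨ε, e, hcur0, hε0, hε1, hε⟩ := hcv.cur
  have hm0 : (0 : ℝ) < m := by exact_mod_cast hm
  obtain ⟨hb, h8⟩ := PBV.PLX.crv_err he he1 hCc hm hε0 hε1
  obtain ⟨hcur, hd, hA⟩ := PBV.PLX.cur_cv hm0 hcur0 hcv.d hcv.hd_le a
  obtain ⟨i1, a1⟩ := H1 hm0.le hε hcur hd hb hA
  obtain ⟨i2, a2⟩ := H2 hm0.le hε hcur hd hb hA
  have b1 := a1.trans (mul_le_mul_of_nonneg_left h8 (by linarith))
  have b2 := a2.trans (mul_le_mul_of_nonneg_left h8 (by linarith))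
  have e3 : ∫ t, sN m a * NUSea.P t * Hend η a t = sN m a / m *
      ((∫ t, (m : ℝ) * NUSea.P t * Real.log (Th0 (pA (Fil.cv a η) t))) -
        ∫ t, (m : ℝ) * NUMF.P t * Real.log (ThN (NUO.pA (Fil.cv a η) t))) := by
    rw [← integral_sub i1 i2, ← integral_const_mul]
    refine integral_congr_ae (ae_of_all _ fun t => ?_)
    show sN m a * NUMF.P t * (Real.log (Th0 (pA (Fil.cv a η) t)) -
        Real.log (ThN (pA (Fil.cv a η) t))) = sN m a / m *
      ((m : ℝ) * NUMF.P t * Real.log (Th0 (pA (Fil.cv a η) t)) -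
        (m : ℝ) * NUMF.P t * Real.log (ThN (pA (Fil.cv a η) t)))
    field_simp
  have hr0 : 0 ≤ sN m a / m := div_nonneg (sN_nonneg m a) hm0.le
  have hr1 : sN m a / m ≤ (Fil.qo : ℕ) := by
    rw [div_le_iff₀ hm0]
    exact sN_le hm a
  rw [e3, abs_mul, abs_of_nonneg hr0]
  refine mul_le_mul hr1 ?_ (abs_nonneg _) (Nat.cast_nonneg _)
  have e4 : NUSea.P 0 = NUMF.P 0 := rfl
  rw [e4] at b1
  rw [abs_le] at b1 b2 ⊢
  constructor <;> linarith [b1.1, b1.2, b2.1, b2.2]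

end P0

end PotH.PLX

end
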