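import Pool.Agent.PLX.Ns
import Pool.Agent.PLX.PotH.AsmH
import Pool.Agent.PLX.PB.FDef

/-!
# Plan B: the bound of one configuration with insertions and weights of the objects

`gasI B P η η' O p q ψ`: the positive gas of `p` quanta X, `q` quanta Y with the insertion `ψ`;
`FnI_eq : FnI = objWc * gasI`; `perH`: from a bound of `gasI` with exponents `u i` of the objects and a
weight `w`, one body bounds `ob1c exp (u i + K') colK ≤ act' exp (-g)` and `w ≤ Bw exp (K2 r) ∏ exp g`: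
`FnI ≤ Bw Q ∏ act' exp (- c1 ∑ cnt²)`.
-/

set_option autoImplicit false

noncomputable section

open MeasureTheory Finset
open scoped ENNReal
open PLX (Fil)

namespace PotH.PLX

open NUO NUP1 NUStabP NUDispW NUGC NUGC.PLX PBF PBF.PLX
open NUDirP (Small)

variable [Fil]

/-- the positive gas with the insertion `ψ` -/
def gasI (B : OB) (P : Par) (η η' : ℝ → ℝ) {r : ℕ} (O : Fin r → Xo) (p q : ℕ)
    (ψ : (Fin p → ℝ) × (Fin q → ℝ) → ℝ≥0∞) : ℝ≥0∞ :=
  ((p.factorial : ℝ≥0∞) * q.factorial)⁻¹ * ∫⁻ x : (Fin p → ℝ) × (Fin q → ℝ),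
    ENNReal.ofReal (NU42.WO (dA (Fil.cv true η)) (dA (Fil.cv true η')) (dA (Fil.cv false η))
      (dA (Fil.cv false η')) (qAc B P η O true) (qAc B P η O false) x.1 x.2) * ψ x

theorem gasI_one (B : OB) (P : Par) (η η' : ℝ → ℝ) {r : ℕ} (O : Fin r → Xo) (p q : ℕ) :
    gasI B P η η' O p q (fun _ => 1) = Z1c B P η η' O p q := by
  unfold gasI Z1c
  simp only [mul_one]

theorem FnI_eq (B : OB) (P : Par) (η η' : ℝ → ℝ) {nX nY : ℕ} {r : ℕ} (O : Fin r → Xo)
    (ψ : (a b : ℕ) → (Fin a → ℝ) × (Fin b → ℝ) → ℝ≥0∞)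
    (hc : chgO O true ≤ nX ∧ chgO O false ≤ nY) :
    FnI B P η η' nX nY O ψ = ENNReal.ofReal (objWc B P O) *
      gasI B P η η' O (nX - chgO O true) (nY - chgO O false)
        (ψ (nX - chgO O true) (nY - chgO O false)) := by
  unfold FnI gasI
  rw [if_pos hc]

theorem FnI_zero (B : OB) (P : Par) (η η' : ℝ → ℝ) {nX nY : ℕ} {r : ℕ} (O : Fin r → Xo)
    (ψ : (a b : ℕ) → (Fin a → ℝ) × (Fin b → ℝ) → ℝ≥0∞)
    (hc : ¬ (chgO O true ≤ nX ∧ chgO O false ≤ nY)) :
    FnI B P η η' nX nY O ψ = 0 := by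
  unfold FnI
  rw [if_neg hc]

/-- **the bound of one configuration** -/
theorem perH (hS : StabProd) (K K2 : ℝ) : ∃ K' c1 : ℝ, 0 < c1 ∧
    ∀ (B : OB), B.Nn → ∀ P : Par, P.jL = 9 / 4 → P.e = 1 / 4 → P.d = d0 →
    (∀ r t, 0 ≤ P.rad r t) → ∀ r : ℕ, Small 8 P r → ∀ O : Fin r → Xo,
    ∀ (η η' : ℝ → ℝ) (nX nY : ℕ) (ψ : (a b : ℕ) → (Fin a → ℝ) × (Fin b → ℝ) → ℝ≥0∞)
      (u g act' : Fin r → ℝ) (Q Bw w : ℝ), 0 ≤ Q → 0 ≤ w → 0 ≤ Bw →
      w ≤ Bw * Real.exp (K2 * r) * Real.exp (∑ i, g i) →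
      (∀ i, ob1c B P.jL (ei P O i) (rr P O i) (O i) * Real.exp (u i + K') *
        colK (((r : ℝ) + 1) ^ 12) (kd (O i)) ≤ act' i * Real.exp (-g i)) →
      (chgO O true ≤ nX → chgO O false ≤ nY →
        gasI B P η η' O (nX - chgO O true) (nY - chgO O false)
          (ψ (nX - chgO O true) (nY - chgO O false)) ≤
        ENNReal.ofReal (w * (Q * Real.exp (∑ i, u i + K * r + enC O +
          c1 * win univ fun i => ht (O i))))) →
    ∀ W : Finset ℤ, FnI B P η η' nX nY O ψ ≤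
      ENNReal.ofReal (Bw * Q * (∏ i, act' i) * Real.exp (-(c1 * ∑ w ∈ W, (cO O w : ℝ) ^ 2))) := by
  obtain ⟨K', c1, hc1, H⟩ := asmH hS (K + K2) 0
  refine ⟨K', c1, hc1, ?_⟩
  intro B hB P hj he hd hr r hsm O η η' nX nY ψ u g act' Q Bw w hQ hw hBw hwB hone hgas W
  by_cases hc : chgO O true ≤ nX ∧ chgO O false ≤ nY
  swap
  · rw [FnI_zero _ _ _ _ _ _ hc]
    exact zero_le
  have ho : ∀ i, 0 ≤ ob1c B P.jL (ei P O i) (rr P O i) (O i) := fun i =>
    ob1c_nonneg hB _ _ (hr _ _) _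
  have hobj : 0 ≤ objWc B P O := objWc_nonneg hB hr O
  have key := H P hj he hd r hsm O (fun i => ob1c B P.jL (ei P O i) (rr P O i) (O i))
    (fun _ => 1) u (fun _ => 0) (fun i => act' i * Real.exp (-g i)) ho (fun _ => zero_le_one)
    (fun _ => by simp) hone Q hQ W
  simp only [Finset.prod_const_one, mul_one, Finset.sum_const_zero, add_zero] at key
  rw [FnI_eq _ _ _ _ _ _ hc]
  refine (mul_le_mul' le_rfl (hgas hc.1 hc.2)).trans ?_
  rw [← ENNReal.ofReal_mul hobj]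
  refine ENNReal.ofReal_le_ofReal ?_
  have hprod : ∏ i, act' i * Real.exp (-g i) = (∏ i, act' i) * Real.exp (-∑ i, g i) := by
    rw [Finset.prod_mul_distrib, ← Real.exp_sum, Finset.sum_neg_distrib]
  rw [hprod] at key
  have hE : Real.exp (∑ i, u i + K * r + enC O + c1 * win univ fun i => ht (O i)) =
      Real.exp (-(K2 * r)) * Real.exp (∑ i, u i + (K + K2) * r + enC O +
        c1 * win univ fun i => ht (O i)) := by
    rw [← Real.exp_add]
    congr 1
    ring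
  have hobjW : objWc B P O = (∏ i, ob1c B P.jL (ei P O i) (rr P O i) (O i)) *
      ∏ i, ∏ j, if i < j then pairN P O i j else 1 := rfl
  obtain ⟨X, hX⟩ : ∃ X, X = Real.exp (∑ i, u i + (K + K2) * r + enC O +
    c1 * win univ fun i => ht (O i)) := ⟨_, rfl⟩
  obtain ⟨G, hG⟩ : ∃ G, G = ∑ i, g i := ⟨_, rfl⟩
  obtain ⟨Y, hY⟩ : ∃ Y, Y = Real.exp (-(c1 * ∑ w ∈ W, (cO O w : ℝ) ^ 2)) := ⟨_, rfl⟩
  obtain ⟨A, hA⟩ : ∃ A, A = ∏ i, act' i := ⟨_, rfl⟩
  rw [hE, ← hX, ← hY, ← hA]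
  rw [← hobjW, ← hX, ← hG, ← hY, ← hA] at key
  rw [← hG] at hwB
  have hX0 : 0 < X := by
    rw [hX]
    exact Real.exp_pos _
  have h1 : 0 ≤ objWc B P O * (Q * X) := by positivity
  calc objWc B P O * (w * (Q * (Real.exp (-(K2 * r)) * X)))
      = w * Real.exp (-(K2 * r)) * (objWc B P O * (Q * X)) := by ring
    _ ≤ (Bw * Real.exp (K2 * r) * Real.exp G) * Real.exp (-(K2 * r)) *
        (objWc B P O * (Q * X)) := by
        refine mul_le_mul_of_nonneg_right ?_ h1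
        exact mul_le_mul_of_nonneg_right hwB (Real.exp_pos _).le
    _ = Bw * Real.exp G * (objWc B P O * (Q * X)) := by
        have : Real.exp (K2 * r) * Real.exp (-(K2 * r)) = 1 := by
          rw [← Real.exp_add]
          simp
        linear_combination Bw * Real.exp G * (objWc B P O * (Q * X)) * this
    _ ≤ Bw * Real.exp G * (Q * (A * Real.exp (-G)) * Y) :=
        mul_le_mul_of_nonneg_left key (mul_nonneg hBw (Real.exp_pos _).le)
    _ = Bw * Q * A * Y := by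
        have : Real.exp G * Real.exp (-G) = 1 := by
          rw [← Real.exp_add]
          simp
        linear_combination Bw * Q * A * Y * this

end PotH.PLX

end
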