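import Pool.Agent.PLX.PotH.SrcH

/-!
# Sums of admissible potentials and of sources

`DnS.add`, `SrcOk.add`, `srcP_add`, `HOk.add`, `HSk.add`; `HOk.mono_A`, `HSk.mono_A`.
-/

set_option autoImplicit false
set_option linter.unusedSectionVars false

noncomputable section

open MeasureTheory Finset Filter Topology

namespace NUSea.PLX.H0

theorem DnS.add {s s' : ℝ} {f f' : ℝ → ℝ} (h : DnS s f) (h' : DnS s' f') :
    DnS (s + s') fun t => f t + f' t :=
  ⟨add_nonneg h.s0 h'.s0, h.c.add h'.c, fun t => (abs_add_le _ _).trans (by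
    have := h.b t
    have := h'.b t
    linarith)⟩

theorem SrcOk.add {s s' : ℝ} {ν ν' : Bool → ℝ → ℝ} {τ τ' : ℝ → ℝ} (h : SrcOk s ν τ)
    (h' : SrcOk s' ν' τ') : SrcOk (s + s') (fun a t => ν a t + ν' a t) fun t => τ t + τ' t :=
  ⟨fun a => (h.dν a).add (h'.dν a), h.dτ.add h'.dτ, by
    rw [integral_add h.dτ.int h'.dτ.int, h.τ0, h'.τ0, add_zero]⟩

theorem srcP_add {s s' : ℝ} {ν ν' : Bool → ℝ → ℝ} {τ τ' : ℝ → ℝ} (h : SrcOk s ν τ)
    (h' : SrcOk s' ν' τ') (a : Bool) (t : ℝ) :
    srcP (fun a t => ν a t + ν' a t) (fun t => τ t + τ' t) a t = srcP ν τ a t + srcP ν' τ' a t := by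
  have e1 : (∫ u, (ν a u + ν' a u) * NUMF.V (t - u)) =
      (∫ u, ν a u * NUMF.V (t - u)) + ∫ u, ν' a u * NUMF.V (t - u) := by
    rw [← integral_add ((h.dν a).V_in t) ((h'.dν a).V_in t)]
    refine integral_congr_ae (ae_of_all _ fun u => ?_)
    simp only
    ring
  have e2 : NUC43.lgp (fun t => τ t + τ' t) t = NUC43.lgp τ t + NUC43.lgp τ' t := by
    unfold NUC43.lgp
    rw [← integral_add (h.dτ.lg_in t) (h'.dτ.lg_in t)]
    refine integral_congr_ae (ae_of_all _ fun u => ?_)
    simp only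
    ring
  unfold srcP
  rw [e1, e2]
  ring

end NUSea.PLX.H0

namespace PotH.PLX

open NUSea.PLX.H0 (SrcOk srcP srcP_add)

theorem HOk.mono_A {B0 N0 th b A A' : ℝ} {H H' : Bool → ℝ → ℝ} (h : HOk B0 N0 th b A H H')
    (hA : A ≤ A') : HOk B0 N0 th b A' H H' :=
  { h with ext := fun a => (h.ext a).mono hA }

theorem HSk.mono_A {B0 N0 th b A A' : ℝ} {H H' : Bool → ℝ → ℝ} (h : HSk B0 N0 th b A H H')
    (hA : A ≤ A') : HSk B0 N0 th b A' H H' := by
  obtain ⟨ν, τ, H0', hs, hH⟩ := h.src
  exact ⟨h.d, h.c, fun a => (h.ext a).mono hA, ν, τ, H0', hs, hH.mono_A hA⟩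

theorem HOk.add {B N th b A B' N' th' A' : ℝ} {H H' G G' : Bool → ℝ → ℝ} (h : HOk B N th b A H H')
    (k : HOk B' N' th' b A' G G') :
    HOk (B + B') (2 * N + 2 * N') (2 * th + 2 * th') b (A + A') (fun a t => H a t + G a t)
      (fun a t => H' a t + G' a t) where
  d a t := (h.d a t).add (k.d a t)
  c a := (h.c a).add (k.c a)
  le a t := (abs_add_le _ _).trans (add_le_add (h.le a t) (k.le a t))
  en a T hT := by
    have cH : Continuous (H a) := continuous_iff_continuousAt.2 fun t => (h.d a t).continuousAt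
    have cG : Continuous (G a) := continuous_iff_continuousAt.2 fun t => (k.d a t).continuousAt
    have cH' := h.c a
    have cG' := k.c a
    have i1 : IntervalIntegrable (fun t => H a t ^ 2 + H' a t ^ 2) volume (-T) T :=
      ((cH.pow 2).add (cH'.pow 2)).intervalIntegrable _ _
    have i2 : IntervalIntegrable (fun t => G a t ^ 2 + G' a t ^ 2) volume (-T) T :=
      ((cG.pow 2).add (cG'.pow 2)).intervalIntegrable _ _
    calc ∫ t in (-T)..T, ((H a t + G a t) ^ 2 + (H' a t + G' a t) ^ 2) ≤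
        ∫ t in (-T)..T, (2 * (H a t ^ 2 + H' a t ^ 2) + 2 * (G a t ^ 2 + G' a t ^ 2)) := by
          refine intervalIntegral.integral_mono_on (by linarith) ?_
            ((i1.const_mul 2).add (i2.const_mul 2)) fun t _ => ?_
          · exact (((cH.add cG).pow 2).add ((cH'.add cG').pow 2)).intervalIntegrable _ _
          · nlinarith [sq_nonneg (H a t - G a t), sq_nonneg (H' a t - G' a t)]
      _ = 2 * (∫ t in (-T)..T, (H a t ^ 2 + H' a t ^ 2)) +
          2 * ∫ t in (-T)..T, (G a t ^ 2 + G' a t ^ 2) := by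
          rw [intervalIntegral.integral_add (i1.const_mul 2) (i2.const_mul 2),
            intervalIntegral.integral_const_mul, intervalIntegral.integral_const_mul]
      _ ≤ _ := by
          have := h.en a T hT
          have := k.en a T hT
          linarith
  ext a := (h.ext a).add (k.ext a)

/-- **sums** -/
theorem HSk.add {B N th b A B' N' th' A' : ℝ} {H H' G G' : Bool → ℝ → ℝ} (h : HSk B N th b A H H')
    (k : HSk B' N' th' b A' G G') :
    HSk (B + B') (2 * N + 2 * N') (2 * th + 2 * th') b (A + A') (fun a t => H a t + G a t)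
      (fun a t => H' a t + G' a t) := by
  obtain ⟨ν, τ, H0', hs, hH⟩ := h.src
  obtain ⟨ν', τ', G0', hs', hG⟩ := k.src
  refine ⟨fun a t => (h.d a t).add (k.d a t), fun a => (h.c a).add (k.c a),
    fun a => (h.ext a).add (k.ext a), fun a t => ν a t + ν' a t, fun t => τ t + τ' t,
    fun a t => H0' a t + G0' a t, hs.add hs', ?_⟩
  have e : (fun a t => H a t + G a t -
      srcP (fun a t => ν a t + ν' a t) (fun t => τ t + τ' t) a t) =
      fun a t => (H a t - srcP ν τ a t) + (G a t - srcP ν' τ' a t) := by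
    funext a t
    rw [srcP_add hs hs']
    ring
  rw [e]
  exact hH.add hG

end PotH.PLX

end
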